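import Pool.Agent.Helper72.PT.St

/-! PT, module SA1: the number of signed permutations with positive partial sums -/

open Finset

namespace Pool.Agent.Helper12.PT

open Pool.HW Pool.PL Pool.PT

section lists

variable {α : Type} [DecidableEq α] (x : α → ℤ)

/-- the value of a signed index -/
def sv (p : α × Bool) : ℤ := if p.2 then x p.1 else - x p.1

/-- the sum of a list of signed indices -/
def sm (l : List (α × Bool)) : ℤ := (l.map (sv x)).sum

omit [DecidableEq α] in
theorem sm_nil : sm x [] = 0 := rfl

omit [DecidableEq α] in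
theorem sm_append (a b : List (α × Bool)) : sm x (a ++ b) = sm x a + sm x b := by
  unfold sm
  rw [List.map_append, List.sum_append]

/-- the reversed list with changed signs -/
def rf (l : List (α × Bool)) : List (α × Bool) := (l.map fun p => (p.1, !p.2)).reverse

omit [DecidableEq α] in
theorem rf_append (a b : List (α × Bool)) : rf (a ++ b) = rf b ++ rf a := by
  unfold rf
  rw [List.map_append, List.reverse_append]

omit [DecidableEq α] in
theorem rf_rf (a : List (α × Bool)) : rf (rf a) = a := by
  unfold rf
  rw [List.map_reverse, List.reverse_reverse, List.map_map]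
  conv_rhs => rw [← List.map_id a]
  congr 1
  funext p
  simp

omit [DecidableEq α] in
theorem sm_rf (a : List (α × Bool)) : sm x (rf a) = - sm x a := by
  induction a with
  | nil => simp [rf, sm]
  | cons p a ih =>
    have h : rf (p :: a) = rf a ++ [(p.1, !p.2)] := by
      simp [rf]
    rw [h, sm_append, ih]
    have h2 : sm x (p :: a) = sv x p + sm x a := by simp [sm]
    rw [h2]
    have h3 : sm x [(p.1, !p.2)] = - sv x p := by
      rcases p with ⟨i, b⟩
      cases b <;> simp [sm, sv]
    rw [h3]
    ring

omit [DecidableEq α] in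
theorem rf_ne_nil {a : List (α × Bool)} (h : a ≠ []) : rf a ≠ [] := by
  intro h1
  apply h
  have := congrArg rf h1
  rw [rf_rf] at this
  rw [this]
  rfl

omit [DecidableEq α] in
theorem map_fst_rf (a : List (α × Bool)) :
    (rf a).map Prod.fst = (a.map Prod.fst).reverse := by
  unfold rf
  rw [List.map_reverse, List.map_map]
  rfl

/-- all sums of nonempty prefixes are positive -/
def Pos (l : List (α × Bool)) : Prop := ∀ a b, a ++ b = l → a ≠ [] → 0 < sm x a

/-- `l` lists the elements of `S`, with signs -/
def IsL (S : Finset α) (l : List (α × Bool)) : Prop :=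
  (l.map Prod.fst).Nodup ∧ (l.map Prod.fst).toFinset = S

/-- the lists of the elements of a set with `k` elements, with signs -/
def ls : ℕ → Finset α → Finset (List (α × Bool))
  | 0, _ => {[]}
  | k + 1, S => (S ×ˢ (univ : Finset Bool)).biUnion fun p => (ls k (S.erase p.1)).image (List.cons p)

theorem mem_ls (k : ℕ) : ∀ (S : Finset α), S.card = k → ∀ l, l ∈ ls k S ↔ IsL S l := by
  induction k with
  | zero =>
    intro S hS l
    rw [Finset.card_eq_zero] at hS
    subst hS
    unfold ls IsL
    rw [mem_singleton]
    constructor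
    · rintro rfl
      simp
    · rintro ⟨-, h⟩
      rw [List.toFinset_eq_empty_iff, List.map_eq_nil_iff] at h
      exact h
  | succ k ih =>
    intro S hS l
    unfold ls
    rw [mem_biUnion]
    constructor
    · rintro ⟨p, hp, hl⟩
      rw [mem_product] at hp
      rw [mem_image] at hl
      obtain ⟨l', hl', rfl⟩ := hl
      have hc : (S.erase p.1).card = k := by
        rw [card_erase_of_mem hp.1, hS]
        rfl
      rw [ih _ hc] at hl'
      constructor
      · rw [List.map_cons, List.nodup_cons]
        refine ⟨fun h => ?_, hl'.1⟩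
        rw [← List.mem_toFinset, hl'.2] at h
        exact (notMem_erase _ _) h
      · rw [List.map_cons, List.toFinset_cons, hl'.2, insert_erase hp.1]
    · rintro ⟨h1, h2⟩
      cases l with
      | nil =>
        exfalso
        have : S = ∅ := by rw [← h2]; rfl
        rw [this] at hS
        simp at hS
      | cons p l' =>
        rw [List.map_cons, List.nodup_cons] at h1
        rw [List.map_cons, List.toFinset_cons] at h2
        have hp : p.1 ∈ S := by
          rw [← h2]
          exact mem_insert_self _ _
        refine ⟨p, mem_product.2 ⟨hp, mem_univ _⟩, mem_image.2 ⟨l', ?_, rfl⟩⟩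
        have hc : (S.erase p.1).card = k := by
          rw [card_erase_of_mem hp, hS]
          rfl
        rw [ih _ hc]
        refine ⟨h1.2, ?_⟩
        rw [← h2, erase_insert]
        rw [List.mem_toFinset]
        exact h1.1

theorem card_ls (k : ℕ) : ∀ (S : Finset α), S.card = k → (ls k S).card = 2 ^ k * k.factorial := by
  induction k with
  | zero =>
    intro S hS
    simp [ls]
  | succ k ih =>
    intro S hS
    unfold ls
    rw [card_biUnion]
    · have h : ∀ p ∈ S ×ˢ (univ : Finset Bool),
          ((ls k (S.erase p.1)).image (List.cons p)).card = 2 ^ k * k.factorial := by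
        intro p hp
        rw [mem_product] at hp
        rw [card_image_of_injective _ (List.cons_injective), ih]
        rw [card_erase_of_mem hp.1, hS]
        rfl
      rw [sum_congr rfl h, sum_const, card_product, hS]
      simp only [Fintype.card_bool, card_univ, smul_eq_mul]
      rw [Nat.factorial_succ]
      ring
    · intro p _ q _ hpq
      rw [Function.onFun, disjoint_left]
      intro l hl hl'
      rw [mem_image] at hl hl'
      obtain ⟨a, -, rfl⟩ := hl
      obtain ⟨b, -, hb⟩ := hl'
      exact hpq (List.cons.inj hb).1.symm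

open Classical in
/-- the lists of `S` with signs and with positive partial sums -/
noncomputable def ps (S : Finset α) : Finset (List (α × Bool)) := (ls S.card S).filter (Pos x)

open Classical in
theorem mem_ps (S : Finset α) (l : List (α × Bool)) : l ∈ ps x S ↔ IsL S l ∧ Pos x l := by
  unfold ps
  rw [mem_filter, mem_ls _ _ rfl]

/-- no signed sum of different elements is zero -/
def Gen : Prop := ∀ l : List (α × Bool), l ≠ [] → (l.map Prod.fst).Nodup → sm x l ≠ 0

omit [DecidableEq α] in
theorem split_unique {u v u' v' : List (α × Bool)} (hu' : Pos x u')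
    (hv : Pos x v) (c : List (α × Bool)) (h1 : rf u' = rf u ++ c)
    (h2 : v = c ++ v') : c = [] := by
  by_contra hc
  have h3 := hv c v' h2.symm hc
  have h4 : rf c ++ u = u' := by
    have := congrArg rf h1
    rw [rf_rf, rf_append, rf_rf] at this
    exact this.symm
  have h5 := hu' (rf c) u h4 (rf_ne_nil hc)
  rw [sm_rf] at h5
  linarith

/-- the decomposition at the minimum -/
theorem sum_ps (hx : Gen x) (S : Finset α) :
    ∑ T ∈ S.powerset, (ps x T).card * (ps x (S \ T)).card = 2 ^ S.card * S.card.factorial := by
  rw [← card_ls S.card S rfl]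
  have e : ∑ T ∈ S.powerset, (ps x T).card * (ps x (S \ T)).card =
      (S.powerset.sigma fun T => ps x T ×ˢ ps x (S \ T)).card := by
    rw [card_sigma]
    refine sum_congr rfl fun T _ => ?_
    rw [card_product]
  rw [e]
  refine card_bij (fun q _ => rf q.2.1 ++ q.2.2) ?_ ?_ ?_
  · rintro ⟨T, u, v⟩ hq
    simp only [mem_sigma, mem_powerset, mem_product, mem_ps] at hq
    obtain ⟨hT, ⟨⟨hu1, hu2⟩, -⟩, ⟨hv1, hv2⟩, -⟩ := hq
    rw [mem_ls _ _ rfl]
    constructor
    · show ((rf u ++ v).map Prod.fst).Nodup
      rw [List.map_append, map_fst_rf, List.nodup_append']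
      refine ⟨List.nodup_reverse.2 hu1, hv1, ?_⟩
      intro i hi hi'
      rw [List.mem_reverse, ← List.mem_toFinset, hu2] at hi
      rw [← List.mem_toFinset, hv2, mem_sdiff] at hi'
      exact hi'.2 hi
    · show ((rf u ++ v).map Prod.fst).toFinset = S
      rw [List.map_append, map_fst_rf, List.toFinset_append, List.toFinset_reverse, hu2, hv2,
        union_sdiff_of_subset hT]
  · rintro ⟨T, u, v⟩ hq ⟨T', u', v'⟩ hq' heq
    simp only [mem_sigma, mem_powerset, mem_product, mem_ps] at hq hq'
    obtain ⟨hT, ⟨⟨hu1, hu2⟩, hu3⟩, ⟨hv1, hv2⟩, hv3⟩ := hq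
    obtain ⟨hT', ⟨⟨hu1', hu2'⟩, hu3'⟩, ⟨hv1', hv2'⟩, hv3'⟩ := hq'
    have heq' : rf u ++ v = rf u' ++ v' := heq
    have key : rf u = rf u' ∧ v = v' := by
      rw [List.append_eq_append_iff] at heq'
      rcases heq' with ⟨c, h1, h2⟩ | ⟨c, h1, h2⟩
      · have hc := split_unique x hu3' hv3 c h1 h2
        subst hc
        simp at h1 h2
        exact ⟨h1.symm, h2⟩
      · have hc := split_unique x hu3 hv3' c h1 h2
        subst hc
        simp at h1 h2
        exact ⟨h1, h2.symm⟩
    have hu : u = u' := by
      have := congrArg rf key.1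
      rwa [rf_rf, rf_rf] at this
    obtain ⟨-, rfl⟩ := key
    subst hu
    have : T = T' := by rw [← hu2, ← hu2']
    subst this
    rfl
  · intro l hl
    rw [mem_ls _ _ rfl] at hl
    obtain ⟨hl1, hl2⟩ := hl
    obtain ⟨j, hj, hmin⟩ := exists_min_image (range (l.length + 1)) (fun j => sm x (l.take j))
      ⟨0, by simp⟩
    have hmin' : ∀ a b, a ++ b = l → sm x (l.take j) ≤ sm x a := by
      intro a b hab
      have h1 : l.take a.length = a := by rw [← hab]; simp
      have h2 : a.length ∈ range (l.length + 1) := by
        rw [mem_range, ← hab, List.length_append]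
        omega
      have := hmin a.length h2
      rwa [h1] at this
    obtain ⟨p, hp⟩ : ∃ p, p = l.take j := ⟨_, rfl⟩
    obtain ⟨s, hs⟩ : ∃ s, s = l.drop j := ⟨_, rfl⟩
    have hps : p ++ s = l := by rw [hp, hs, List.take_append_drop]
    rw [← hp] at hmin'
    have hnd := hl1
    rw [← hps, List.map_append, List.nodup_append'] at hnd
    obtain ⟨hnp, hns, hdis⟩ := hnd
    have hTS : (p.map Prod.fst).toFinset ⊆ S := by
      rw [← hl2, ← hps, List.map_append, List.toFinset_append]
      exact subset_union_left
    have hpos1 : Pos x (rf p) := by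
      intro a b hab ha
      have h1 : rf b ++ rf a = p := by
        have := congrArg rf hab
        rwa [rf_append, rf_rf] at this
      have h2 := hmin' (rf b) (rf a ++ s) (by rw [← List.append_assoc, h1, hps])
      rw [← h1, sm_append, sm_rf, sm_rf] at h2
      have h3 : sm x a ≠ 0 := by
        apply hx a ha
        have h4 : ((rf p).map Prod.fst).Nodup := by
          rw [map_fst_rf]
          exact List.nodup_reverse.2 hnp
        rw [← hab, List.map_append, List.nodup_append'] at h4
        exact h4.1
      have h4 : 0 ≤ sm x a := by linarith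
      exact lt_of_le_of_ne h4 h3.symm
    have hpos2 : Pos x s := by
      intro a b hab ha
      have h2 := hmin' (p ++ a) b (by rw [List.append_assoc, hab, hps])
      rw [sm_append] at h2
      have h3 : sm x a ≠ 0 := by
        apply hx a ha
        rw [← hab, List.map_append, List.nodup_append'] at hns
        exact hns.1
      have h4 : 0 ≤ sm x a := by linarith
      exact lt_of_le_of_ne h4 h3.symm
    refine ⟨⟨(p.map Prod.fst).toFinset, rf p, s⟩, ?_, ?_⟩
    · simp only [mem_sigma, mem_powerset, mem_product, mem_ps]
      refine ⟨hTS, ⟨⟨?_, ?_⟩, hpos1⟩, ⟨⟨hns, ?_⟩, hpos2⟩⟩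
      · rw [map_fst_rf]
        exact List.nodup_reverse.2 hnp
      · rw [map_fst_rf, List.toFinset_reverse]
      · rw [← hl2, ← hps, List.map_append, List.toFinset_append]
        ext i
        simp only [List.mem_toFinset, mem_sdiff, mem_union]
        constructor
        · intro hi
          exact ⟨Or.inr hi, fun hi' => hdis hi' hi⟩
        · rintro ⟨hi | hi, hi'⟩
          · exact absurd hi hi'
          · exact hi
    · show rf (rf p) ++ s = l
      rw [rf_rf, hps]

/-- removal of the last element -/
theorem ps_card_le (S : Finset α) (k : ℕ) (hS : S.card = k + 1) :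
    (ps x S).card ≤ ∑ i ∈ S, 2 * (ps x (S.erase i)).card := by
  have hsub : ps x S ⊆ (S ×ˢ (univ : Finset Bool)).biUnion fun p =>
      (ps x (S.erase p.1)).image fun l => l ++ [p] := by
    intro l hl
    rw [mem_ps] at hl
    obtain ⟨⟨h1, h2⟩, h3⟩ := hl
    rcases List.eq_nil_or_concat l with h | ⟨l', p, h⟩
    · exfalso
      subst h
      have : S = ∅ := by rw [← h2]; rfl
      rw [this] at hS
      simp at hS
    · rw [List.concat_eq_append] at h
      subst h
      rw [List.map_append, List.nodup_append'] at h1
      rw [List.map_append, List.toFinset_append] at h2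
      have hp : p.1 ∈ S := by
        rw [← h2]
        simp
      rw [mem_biUnion]
      refine ⟨p, mem_product.2 ⟨hp, mem_univ _⟩, mem_image.2 ⟨l', ?_, rfl⟩⟩
      rw [mem_ps]
      have hnot : p.1 ∉ (l'.map Prod.fst).toFinset := by
        intro hi
        rw [List.mem_toFinset] at hi
        exact h1.2.2 hi (by simp)
      refine ⟨⟨h1.1, ?_⟩, ?_⟩
      · rw [← h2]
        ext i
        rw [mem_erase, mem_union]
        constructor
        · intro hi
          refine ⟨?_, Or.inl hi⟩
          rintro rfl
          exact hnot hi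
        · rintro ⟨hne, hi | hi⟩
          · exact hi
          · exfalso
            simp at hi
            exact hne hi
      · intro a b hab ha
        exact h3 a (b ++ [p]) (by rw [← List.append_assoc, hab]) ha
  refine (card_le_card hsub).trans (card_biUnion_le.trans ?_)
  rw [sum_product]
  refine sum_le_sum fun i _ => ?_
  have h : ∀ b ∈ (univ : Finset Bool),
      ((ps x (S.erase (i, b).1)).image fun l => l ++ [(i, b)]).card ≤ (ps x (S.erase i)).card :=
    fun b _ => card_image_le
  refine (sum_le_sum h).trans (le_of_eq ?_)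
  rw [sum_const]
  simp

/-- the number of lists only depends on the number of elements -/
theorem ps_card_eq (hx : Gen x) (k : ℕ) : ∃ c : ℕ, ∀ S : Finset α, S.card = k → (ps x S).card = c := by
  induction k using Nat.strong_induction_on with
  | _ k ih =>
    rcases Nat.eq_zero_or_pos k with h0 | h0
    · subst h0
      refine ⟨(ps x ∅).card, fun S hS => ?_⟩
      rw [Finset.card_eq_zero] at hS
      rw [hS]
    · choose c hc using ih
      set c' : ℕ → ℕ := fun m => if h : m < k then c m h else 0 with hc'
      set f : ℕ → ℕ := fun m => if m = 0 ∨ m = k then 0 else c' m * c' (k - m) with hf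
      refine ⟨(2 ^ k * k.factorial - ∑ m ∈ range (k + 1), k.choose m • f m) / 2, fun S hS => ?_⟩
      have h1 := sum_ps x hx S
      have hemp : (ps x (∅ : Finset α)).card = 1 := by
        have : ps x (∅ : Finset α) = {[]} := by
          ext l
          rw [mem_ps, mem_singleton]
          constructor
          · rintro ⟨⟨-, h⟩, -⟩
            rw [List.toFinset_eq_empty_iff, List.map_eq_nil_iff] at h
            exact h
          · rintro rfl
            refine ⟨⟨by simp, by simp⟩, ?_⟩
            intro a b hab ha
            exact absurd (List.append_eq_nil_iff.1 hab).1 ha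
        rw [this, card_singleton]
      have h2 : ∀ T ∈ S.powerset, (ps x T).card * (ps x (S \ T)).card =
          f T.card + ((if T = ∅ then (ps x S).card else 0) + if T = S then (ps x S).card else 0) := by
        intro T hT
        rw [mem_powerset] at hT
        by_cases hT0 : T = ∅
        · subst hT0
          have hne : (∅ : Finset α) ≠ S := by
            rintro rfl
            simp at hS
            omega
          rw [sdiff_empty, hemp, if_pos rfl, if_neg hne, hf]
          simp
        · by_cases hTS : T = S
          · subst hTS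
            rw [sdiff_self, if_pos rfl, if_neg hT0, hf]
            simp only [bot_eq_empty]
            rw [hemp, hS]
            simp
          · have hTk : T.card < k := by
              rw [← hS]
              exact card_lt_card (hT.ssubset_of_ne hTS)
            have hT1 : T.card ≠ 0 := by
              rwa [Ne, Finset.card_eq_zero]
            have hST : (S \ T).card = k - T.card := by
              rw [card_sdiff_of_subset hT, hS]
            rw [if_neg hT0, if_neg hTS, hf, add_zero, add_zero]
            simp only
            rw [if_neg (by omega), hc']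
            simp only
            rw [dif_pos hTk, dif_pos (by omega : k - T.card < k), hc _ hTk T rfl,
              hc _ (by omega : k - T.card < k) (S \ T) hST]
      rw [sum_congr rfl h2, sum_add_distrib, sum_add_distrib, sum_powerset_apply_card, sum_ite_eq',
        sum_ite_eq', if_pos (empty_mem_powerset S), if_pos (mem_powerset_self S), hS] at h1
      omega

/-- the estimate for a generic function -/
theorem ps_bound (hx : Gen x) (S : Finset α) :
    (((ps x S).card : ℝ)) ^ 2 * ((S.card : ℝ) + 1) ≤ (2 ^ S.card * (S.card.factorial : ℝ)) ^ 2 := by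
  choose c hc using ps_card_eq x hx
  set b : ℕ → ℝ := fun k => c k / (2 ^ k * (k.factorial : ℝ)) with hb
  have hb0 : ∀ k, 0 ≤ b k := fun k => by rw [hb]; positivity
  have hmono : ∀ k, k < S.card → b (k + 1) ≤ b k := by
    intro k hk
    obtain ⟨T, hT, hTk⟩ := exists_subset_card_eq (s := S) (n := k + 1) hk
    have h1 := ps_card_le x T k hTk
    have h2 : ∀ i ∈ T, 2 * (ps x (T.erase i)).card = 2 * c k := by
      intro i hi
      rw [hc k (T.erase i) (by rw [card_erase_of_mem hi, hTk]; rfl)]
    rw [sum_congr rfl h2, sum_const, hTk, hc _ T hTk, smul_eq_mul] at h1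
    have h3 : (c (k + 1) : ℝ) ≤ (k + 1) * (2 * c k) := by exact_mod_cast h1
    rw [hb]
    simp only
    rw [div_le_div_iff₀ (by positivity) (by positivity), Nat.factorial_succ]
    push_cast
    have h4 : (0 : ℝ) ≤ 2 ^ k * (k.factorial : ℝ) := by positivity
    calc (c (k + 1) : ℝ) * (2 ^ k * (k.factorial : ℝ)) ≤
        (k + 1) * (2 * c k) * (2 ^ k * (k.factorial : ℝ)) := mul_le_mul_of_nonneg_right h3 h4
      _ = c k * (2 ^ (k + 1) * ((k + 1) * (k.factorial : ℝ))) := by ring
  have hmono2 : ∀ d k, k + d ≤ S.card → b (k + d) ≤ b k := by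
    intro d
    induction d with
    | zero =>
      intro k _
      exact le_rfl
    | succ d ih =>
      intro k hk
      have h1 := hmono (k + d) (by omega)
      exact h1.trans (ih k (by omega))
  have h1 := sum_ps x hx S
  have h2 : ∀ T ∈ S.powerset, (ps x T).card * (ps x (S \ T)).card =
      (fun m => c m * c (S.card - m)) T.card := by
    intro T hT
    rw [mem_powerset] at hT
    show _ = c T.card * c (S.card - T.card)
    rw [hc _ T rfl, hc _ (S \ T) rfl, card_sdiff_of_subset hT]
  rw [sum_congr rfl h2, sum_powerset_apply_card (fun m => c m * c (S.card - m))] at h1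
  obtain ⟨n, hn⟩ : ∃ n, n = S.card := ⟨_, rfl⟩
  rw [hc _ S rfl]
  rw [← hn] at h1 hmono2 ⊢
  have h3 : ∑ m ∈ range (n + 1), ((n.choose m : ℝ) * (c m * c (n - m))) =
      2 ^ n * (n.factorial : ℝ) := by
    have := congrArg (fun z : ℕ => (z : ℝ)) h1
    push_cast at this
    simpa using this
  have hK : (0 : ℝ) < 2 ^ n * (n.factorial : ℝ) := by positivity
  have hcb : ∀ k, (c k : ℝ) = b k * (2 ^ k * (k.factorial : ℝ)) := by
    intro k
    rw [hb]
    have : (2 : ℝ) ^ k * (k.factorial : ℝ) ≠ 0 := by positivity
    simp only
    rw [div_mul_cancel₀ _ this]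
  have h4 : ∀ m ∈ range (n + 1), 2 ^ n * (n.factorial : ℝ) * b n ^ 2 ≤
      (n.choose m : ℝ) * (c m * c (n - m)) := by
    intro m hm
    have hmn : m ≤ n := Nat.lt_succ_iff.1 (mem_range.1 hm)
    have h5 : (n.choose m : ℝ) * (c m * c (n - m)) =
        2 ^ n * (n.factorial : ℝ) * (b m * b (n - m)) := by
      have h6 : (n.choose m : ℝ) * (m.factorial : ℝ) * ((n - m).factorial : ℝ) = n.factorial := by
        exact_mod_cast Nat.choose_mul_factorial_mul_factorial hmn
      have h7 : (2 : ℝ) ^ m * 2 ^ (n - m) = 2 ^ n := by
        rw [← pow_add, Nat.add_sub_cancel' hmn]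
      rw [hcb m, hcb (n - m), ← h6, ← h7]
      ring
    rw [h5]
    apply mul_le_mul_of_nonneg_left _ hK.le
    have h6 : b n ≤ b m := by
      have := hmono2 (n - m) m (by omega)
      rwa [Nat.add_sub_cancel' hmn] at this
    have h7 : b n ≤ b (n - m) := by
      have := hmono2 m (n - m) (by omega)
      rwa [Nat.sub_add_cancel hmn] at this
    rw [sq]
    exact mul_le_mul h6 h7 (hb0 _) (hb0 _)
  have h5 := sum_le_sum h4
  rw [h3, sum_const, card_range, nsmul_eq_mul] at h5
  push_cast at h5
  rw [hcb n]
  have h6 : ((n : ℝ) + 1) * b n ^ 2 ≤ 1 := by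
    by_contra hcon
    push Not at hcon
    have : 2 ^ n * (n.factorial : ℝ) * 1 < 2 ^ n * (n.factorial : ℝ) * (((n : ℝ) + 1) * b n ^ 2) :=
      mul_lt_mul_of_pos_left hcon hK
    linarith
  calc (b n * (2 ^ n * (n.factorial : ℝ))) ^ 2 * ((n : ℝ) + 1) =
      (2 ^ n * (n.factorial : ℝ)) ^ 2 * (((n : ℝ) + 1) * b n ^ 2) := by ring
    _ ≤ (2 ^ n * (n.factorial : ℝ)) ^ 2 * 1 := mul_le_mul_of_nonneg_left h6 (by positivity)
    _ = _ := by ring

end lists

section generic

variable {n : ℕ}

/-- a signed sum of different powers of `3` is small and not zero -/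
theorem signed_pow (T : Finset (Fin n)) (e : Fin n → ℤ) (he : ∀ i ∈ T, e i = 1 ∨ e i = -1) :
    |∑ i ∈ T, e i * 3 ^ (i : ℕ)| < 3 ^ n ∧ (T.Nonempty → ∑ i ∈ T, e i * 3 ^ (i : ℕ) ≠ 0) := by
  have hgeo : ∀ m : ℕ, ∑ i ∈ range m, (3 : ℤ) ^ i < 3 ^ m := by
    intro m
    induction m with
    | zero => simp
    | succ m ih =>
      rw [sum_range_succ, pow_succ]
      have : (0 : ℤ) < 3 ^ m := by positivity
      linarith
  have habs : ∀ T' : Finset (Fin n), T' ⊆ T → ∀ m : ℕ, (∀ i ∈ T', (i : ℕ) < m) →
      |∑ i ∈ T', e i * 3 ^ (i : ℕ)| < 3 ^ m := by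
    intro T' hT' m hm
    refine lt_of_le_of_lt (abs_sum_le_sum_abs _ _) (lt_of_le_of_lt ?_ (hgeo m))
    have h1 : ∀ i ∈ T', |e i * 3 ^ (i : ℕ)| = 3 ^ (i : ℕ) := by
      intro i hi
      rw [abs_mul]
      have : |e i| = 1 := by
        rcases he i (hT' hi) with h | h <;> rw [h] <;> simp
      rw [this, one_mul, abs_of_nonneg (by positivity)]
    rw [sum_congr rfl h1]
    have h2 : ∑ i ∈ T', (3 : ℤ) ^ (i : ℕ) = ∑ j ∈ T'.image (fun i : Fin n => (i : ℕ)), (3 : ℤ) ^ j := by
      rw [sum_image]
      intro i _ j _ hij
      exact Fin.ext hij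
    rw [h2]
    apply sum_le_sum_of_subset_of_nonneg
    · intro j hj
      rw [mem_image] at hj
      obtain ⟨i, hi, rfl⟩ := hj
      exact mem_range.2 (hm i hi)
    · intro i _ _
      positivity
  refine ⟨habs T (Subset.refl _) n fun i _ => i.2, fun hT => ?_⟩
  obtain ⟨m, hm, hmax⟩ := exists_max_image T (fun i => (i : ℕ)) hT
  rw [← add_sum_erase T _ hm]
  have h1 := habs (T.erase m) (erase_subset _ _) m (by
    intro i hi
    rw [mem_erase] at hi
    have h2 := hmax i hi.2
    have h3 : (i : ℕ) ≠ m := fun h => hi.1 (Fin.ext h)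
    omega)
  rw [abs_lt] at h1
  intro h0
  rcases he m hm with h | h <;> rw [h] at h0 <;> linarith [h1.1, h1.2]

/-- the sum of a list of signed indices as a sum over a finite set -/
theorem exists_signs (l : List (Fin n × Bool)) (hl : (l.map Prod.fst).Nodup) :
    ∃ e : Fin n → ℤ, (∀ i, e i = 1 ∨ e i = -1) ∧ ∀ x : Fin n → ℤ,
      sm x l = ∑ i ∈ (l.map Prod.fst).toFinset, e i * x i := by
  classical
  refine ⟨fun i => if (i, true) ∈ l then 1 else -1, fun i => ?_, fun x => ?_⟩
  · by_cases h : (i, true) ∈ l
    · left; simp [h]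
    · right; simp [h]
  · rw [List.sum_toFinset _ hl, List.map_map]
    unfold sm
    congr 1
    apply List.map_congr_left
    rintro ⟨i, b⟩ hp
    cases b with
    | true => simp [sv, hp]
    | false =>
      have hnot : (i, true) ∉ l := by
        intro h
        have := List.inj_on_of_nodup_map hl h hp rfl
        simp at this
      simp [sv, hnot]

/-- the perturbed function -/
def xh (x : Fin n → ℤ) (i : Fin n) : ℤ := 3 ^ n * x i + 3 ^ (i : ℕ)

theorem sm_xh (x : Fin n → ℤ) (l : List (Fin n × Bool)) (hl : (l.map Prod.fst).Nodup) :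
    ∃ r : ℤ, sm (xh x) l = 3 ^ n * sm x l + r ∧ |r| < 3 ^ n ∧ (l ≠ [] → r ≠ 0) := by
  obtain ⟨e, he, h⟩ := exists_signs l hl
  refine ⟨∑ i ∈ (l.map Prod.fst).toFinset, e i * 3 ^ (i : ℕ), ?_, ?_, ?_⟩
  · rw [h, h, mul_sum, ← sum_add_distrib]
    refine sum_congr rfl fun i _ => ?_
    unfold xh
    ring
  · exact (signed_pow _ e fun i _ => he i).1
  · intro hne
    apply (signed_pow _ e fun i _ => he i).2
    rw [nonempty_iff_ne_empty, Ne, List.toFinset_eq_empty_iff, List.map_eq_nil_iff]
    exact hne

theorem gen_xh (x : Fin n → ℤ) : Gen (xh x) := by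
  intro l hne hl h0
  obtain ⟨r, h1, h2, h3⟩ := sm_xh x l hl
  rw [h0] at h1
  have h4 := h3 hne
  rw [abs_lt] at h2
  have h5 : (0 : ℤ) < 3 ^ n := by positivity
  rcases lt_trichotomy (sm x l) 0 with h | h | h
  · nlinarith
  · rw [h] at h1
    apply h4
    linarith
  · nlinarith

theorem pos_xh (x : Fin n → ℤ) (l : List (Fin n × Bool)) (hl : (l.map Prod.fst).Nodup)
    (h : 0 < sm x l) : 0 < sm (xh x) l := by
  obtain ⟨r, h1, h2, h3⟩ := sm_xh x l hl
  rw [abs_lt] at h2
  have h5 : (0 : ℤ) < 3 ^ n := by positivity
  rw [h1]
  nlinarith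

end generic

open Classical in
/-- Module SA1. -/
theorem sa1 : StSA1 := by
  intro n x
  have hb := ps_bound (xh x) (gen_xh x) univ
  rw [card_univ, Fintype.card_fin] at hb
  refine le_trans ?_ hb
  apply mul_le_mul_of_nonneg_right _ (by positivity)
  apply pow_le_pow_left₀ (by positivity)
  have hle : ((univ : Finset (Equiv.Perm (Fin n) × (Fin n → Bool))).filter fun q =>
    ∀ k : ℕ, 1 ≤ k → k ≤ n → 0 < ∑ i ∈ univ.filter (fun i : Fin n => (i : ℕ) < k),
      (if q.2 i then x (q.1 i) else - x (q.1 i))).card ≤ (ps (xh x) univ).card := by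
    apply card_le_card_of_injOn (fun q => List.ofFn fun i => (q.1 i, q.2 i))
    · intro q hq
      rw [mem_coe, mem_filter] at hq
      rw [mem_coe, mem_ps]
      have hfst : (List.ofFn fun i => (q.1 i, q.2 i)).map Prod.fst = List.ofFn fun i => q.1 i := by
        rw [List.map_ofFn]
        rfl
      have hnd : ((List.ofFn fun i => (q.1 i, q.2 i)).map Prod.fst).Nodup := by
        rw [hfst, List.nodup_ofFn]
        exact q.1.injective
      refine ⟨⟨hnd, ?_⟩, ?_⟩
      · rw [hfst]
        ext i
        simp only [List.mem_toFinset, List.mem_ofFn, mem_univ, iff_true]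
        exact q.1.surjective i
      · intro a b hab' ha
        have hab : a ++ b = List.ofFn fun i => (q.1 i, q.2 i) := hab'
        have hna : (a.map Prod.fst).Nodup := by
          rw [← hab, List.map_append, List.nodup_append'] at hnd
          exact hnd.1
        apply pos_xh x a hna
        have hlen : a.length ≤ n := by
          have := congrArg List.length hab
          rw [List.length_append, List.length_ofFn] at this
          omega
        have h1 := hq.2 a.length (List.length_pos_iff.2 ha) hlen
        have h2 : a = (List.ofFn fun i => (q.1 i, q.2 i)).take a.length := by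
          rw [← hab]
          simp
        have h3 : sm x a = ∑ i ∈ univ.filter (fun i : Fin n => (i : ℕ) < a.length),
            (if q.2 i then x (q.1 i) else - x (q.1 i)) := by
          have h4 := List.sum_take_ofFn (fun i : Fin n =>
            (if q.2 i then x (q.1 i) else - x (q.1 i))) a.length
          rw [← h4]
          unfold sm
          conv_lhs => rw [h2]
          rw [List.map_take, List.map_ofFn]
          rfl
        rw [h3]
        exact h1
    · intro q _ q' _ h
      have h1 := List.ofFn_injective h
      apply Prod.ext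
      · apply Equiv.ext
        intro i
        exact congrArg Prod.fst (congrFun h1 i)
      · funext i
        exact congrArg Prod.snd (congrFun h1 i)
  exact_mod_cast hle

end Pool.Agent.Helper12.PT
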